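import Pool.Agent.W_880b64_h21.Main
import Pool.Agent.W_880b64_h21.LowC

/-!
# The set `A_3` outside `[2/9, 2√3 - 3)`

`2√3 - 3 = 0.46410...`.  No `α ∈ [2√3 - 3, 1)` is a density jump of 3-uniform hypergraphs, and
outside `[2/9, 2√3 - 3)` the set `A_3` consists of `0` and `1`.
-/

namespace Pool.Agent.Results.MP_880b64_co.NonJumpInterval

open W_MP_880b64_co

/-- **Main theorem.** For every `α ∈ [2√3 - 3, 1)` and every `β > α` the property `P_>(3, α, β)`
fails (`α` is a non-jump), and `A_3 \ [2/9, 2√3 - 3) = {0, 1}`.  (The part of the second claim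
about `[0, 2/9)` is Erdős's theorem of 1964.) -/
theorem result :
    (∀ α β : ℝ, 2 * Real.sqrt 3 - 3 ≤ α → α < 1 → α < β → ¬ PGt 3 α β) ∧
      A 3 \ Set.Ico (2 / 9) (2 * Real.sqrt 3 - 3) = {0, 1} := by
  obtain ⟨h1, h2⟩ := W880b64.main
  have h3 := W880b64.LowC_A
  have hs : (2 / 9 : ℝ) < 2 * Real.sqrt 3 - 3 := by
    have := W880b64.s3_lo
    unfold W880b64.s3 at this
    linarith
  have hs1 : 2 * Real.sqrt 3 - 3 < 1 := by
    have := W880b64.s3_hi
    unfold W880b64.s3 at this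
    linarith
  refine ⟨h1, ?_⟩
  ext α
  simp only [Set.mem_diff, Set.mem_Ico, Set.mem_insert_iff, Set.mem_singleton_iff, not_and, not_lt]
  constructor
  · rintro ⟨hA, hα⟩
    have hα0 : 0 ≤ α := hA.1
    have hα1 : α ≤ 1 := hA.2.1
    rcases lt_or_ge α (2 / 9) with h | h
    · left
      have : α ∈ A 3 ∩ Set.Ico 0 (2 / 9) := ⟨hA, hα0, h⟩
      rw [h3] at this
      exact this
    · right
      have : α ∈ A 3 ∩ Set.Icc (2 * Real.sqrt 3 - 3) 1 := ⟨hA, hα h, hα1⟩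
      rw [h2] at this
      exact this
  · rintro (rfl | rfl)
    · have : (0:ℝ) ∈ A 3 ∩ Set.Ico 0 (2 / 9) := by rw [h3]; rfl
      exact ⟨this.1, fun h => by norm_num at h⟩
    · have : (1:ℝ) ∈ A 3 ∩ Set.Icc (2 * Real.sqrt 3 - 3) 1 := by rw [h2]; rfl
      exact ⟨this.1, fun _ => hs1.le⟩

end Pool.Agent.Results.MP_880b64_co.NonJumpInterval
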